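import Pool.Agent.Run7.h230.QF.Stm2
import Pool.Agent.Run7.h230.QF.GR
import Pool.Agent.Run7.h230.QF.NEST

/-! # Piece EQH of project QF (phase 2) -/

set_option autoImplicit false

namespace Run7.h930.QF

open Pool.Agent.Run7.h230.QF
open Pool.Agent.H97R3.VR (IsMedian)
open Pool.Agent.TH97.VR (walls)

section

variable {V : Type} {k : ℕ} {Γ : SimpleGraph V}

lemma cross_compl {A B : Set V} (h : Cross A B) : Cross Aᶜ B := by
  obtain ⟨h1, h2, h3, h4⟩ := h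
  refine ⟨h3, h4, ?_, ?_⟩
  · rw [compl_compl]; exact h1
  · rw [compl_compl]; exact h2

lemma agree_zero {f₁ f₂ : (Fin k → ℤ) → V} (h : Agree f₁ f₂ 1) : f₁ 0 = f₂ 0 :=
  h 0 (fun i => by simp)

lemma agree_single {f₁ f₂ : (Fin k → ℤ) → V} (h : Agree f₁ f₂ 1) (i : Fin k) :
    f₁ (Pi.single i 1) = f₂ (Pi.single i 1) := by
  apply h
  intro i'
  by_cases hi : i' = i
  · subst hi; simp
  · rw [Pi.single_eq_of_ne hi]; simp

lemma hs_zero (hΓ : IsMedian Γ) {f₁ f₂ : (Fin k → ℤ) → V} (h1 : IsFlat Γ f₁) (h2 : IsFlat Γ f₂)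
    (h : Agree f₁ f₂ 1) (i : Fin k) : HS Γ f₁ i 0 = HS Γ f₂ i 0 := by
  have := IsFlat.HS_congr hΓ h1 h2 (z := 0) (w := 0) (i := i) (agree_zero h)
    (by rw [zero_add]; exact agree_single h i)
  exact this

lemma zero_notMem {f : (Fin k → ℤ) → V} (hf : IsFlat Γ f) (i : Fin k) {j : ℤ} (hj : 0 ≤ j) :
    f 0 ∉ HS Γ f i j := by
  rw [hf.side]
  simpa using hj

lemma sub_zero_hs (hΓ : IsMedian Γ) (hG : ¬ Grid Γ (k + 1) 1) {f : (Fin k → ℤ) → V}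
    (hf : IsFlat Γ f) (i : Fin k) {l j : ℤ} (hj : l ≤ j) : HS Γ f i j ⊆ HS Γ f i l := by
  rcases hj.eq_or_lt with h | h
  · rw [h]
  · exact (t_NEST V Γ hΓ k hG f hf i l j h).1

lemma one (hΓ : IsMedian Γ) (hG : ¬ Grid Γ (k + 1) 1) {f₁ f₂ : (Fin k → ℤ) → V}
    (h1 : IsFlat Γ f₁) (h2 : IsFlat Γ f₂) (h : Agree f₁ f₂ 1) (i : Fin k) (j : ℤ) (hj : 0 ≤ j)
    (hc : Cut (HS Γ f₁ i j) f₂) : ∃ t : ℤ, 0 ≤ t ∧ HS Γ f₁ i j = HS Γ f₂ i t := by
  obtain ⟨⟨w, hw⟩, -⟩ := hc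
  have hz : f₂ 0 ∉ HS Γ f₁ i j := by
    rw [← agree_zero h]
    exact zero_notMem h1 i hj
  obtain ⟨i', t, hcase⟩ := h2.sep hΓ (h1.wall i j) hz hw
  have hi : i' = i := by
    by_contra hne
    have hcross : Cross (HS Γ f₁ i j) (HS Γ f₂ i' 0) := by
      rw [← hs_zero hΓ h1 h2 h i']
      exact h1.cross (Ne.symm hne) j 0
    have h3 := t_GR V Γ hΓ k 1 hG f₂ h2 i' {HS Γ f₁ i j} {HS Γ f₂ i' 0}
      ⟨f₂ 0, f₂ w, by
        intro A hA
        rw [Finset.mem_singleton] at hA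
        subst hA
        exact ⟨h1.wall i j, hz, hw⟩⟩
      (by intro B hB; rw [Finset.mem_singleton] at hB; exact ⟨0, hB⟩)
      (by
        intro A hA B hB
        rw [Finset.mem_singleton] at hA hB
        subst hA; subst hB; exact hcross)
      (by
        intro A hA i'' hi'' l _ _
        rw [Finset.mem_singleton] at hA
        subst hA
        rcases hcase with ⟨h4, _, _⟩ | ⟨h4, _, _⟩
        · rw [h4]
          exact h2.cross (Ne.symm hi'') t l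
        · rw [h4]
          exact cross_compl (h2.cross (Ne.symm hi'') t l))
    simp at h3
  subst hi
  rcases hcase with ⟨h4, h5, _⟩ | ⟨h4, _, h6⟩
  · exact ⟨t, by simpa using h5, h4⟩
  · exfalso
    have h7 : f₂ (Pi.single i' t) ∈ HS Γ f₁ i' j := by
      rw [h4, Set.mem_compl_iff, h2.side]
      simp
    have h8 := sub_zero_hs hΓ hG h1 i' hj h7
    rw [hs_zero hΓ h1 h2 h i', h2.side] at h8
    simp at h8 h6
    omega

lemma two (hΓ : IsMedian Γ) (hG : ¬ Grid Γ (k + 1) 1) {f₁ f₂ : (Fin k → ℤ) → V}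
    (h1 : IsFlat Γ f₁) (h2 : IsFlat Γ f₂) (h : Agree f₁ f₂ 1) (i : Fin k) (j : ℕ) :
    ∀ t : ℤ, Cut (HS Γ f₁ i j) f₂ → HS Γ f₁ i j = HS Γ f₂ i t → (j : ℤ) ≤ t := by
  induction j with
  | zero =>
    intro t _ ht
    by_contra hlt
    have h3 : f₂ 0 ∈ HS Γ f₂ i t := by
      rw [h2.side]
      simpa using hlt
    rw [← ht, ← agree_zero h] at h3
    exact zero_notMem h1 i (by simp) h3
  | succ j ih =>
    intro t hc ht
    have hs := t_NEST V Γ hΓ k hG f₁ h1 i (j : ℤ) ((j + 1 : ℕ) : ℤ) (by push_cast; omega)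
    have hc' : Cut (HS Γ f₁ i j) f₂ := by
      obtain ⟨⟨w, hw⟩, _⟩ := hc
      refine ⟨⟨w, hs.1 hw⟩, ⟨0, ?_⟩⟩
      rw [← agree_zero h]
      exact zero_notMem h1 i (by positivity)
    obtain ⟨s, hs0, hs1⟩ := one hΓ hG h1 h2 h i j (by positivity) hc'
    have h3 := ih s hc' hs1
    have h4 : s < t := by
      by_contra hle
      rw [ht, hs1] at hs
      exact hs.2 (sub_zero_hs hΓ hG h2 i (not_lt.mp hle))
    push_cast
    omega

end

theorem t_EQH : S_EQH := by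
  intro V Γ hΓ k hG f₁ f₂ h1 h2 h i j hj hc l hl hlj
  have h' : Agree f₂ f₁ 1 := fun z hz => (h z hz).symm
  have hc' : Cut (HS Γ f₁ i l) f₂ := by
    obtain ⟨⟨w, hw⟩, _⟩ := hc
    refine ⟨⟨w, sub_zero_hs hΓ hG h1 i hlj hw⟩, ⟨0, ?_⟩⟩
    rw [← agree_zero h]
    exact zero_notMem h1 i hl
  obtain ⟨t, ht0, ht⟩ := one hΓ hG h1 h2 h i l hl hc'
  obtain ⟨l', rfl⟩ := Int.eq_ofNat_of_zero_le hl
  obtain ⟨t', rfl⟩ := Int.eq_ofNat_of_zero_le ht0
  have h3 := two hΓ hG h1 h2 h i l' t' hc' ht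
  have h4 : Cut (HS Γ f₂ i t') f₁ := by
    rw [← ht]
    refine ⟨⟨Pi.single i ((l' : ℤ) + 1), ?_⟩, ⟨0, zero_notMem h1 i hl⟩⟩
    rw [h1.side]
    simp
  have h5 := two hΓ hG h2 h1 h' i t' l' h4 ht.symm
  have h6 : (l' : ℤ) = t' := le_antisymm h3 h5
  rw [ht, h6]

end Run7.h930.QF
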