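import Pool.Agent.Run7.h230.QF.Stm2

/-! # Piece HOR of project QF (phase 2) -/

set_option autoImplicit false

namespace Run7.h930.QF

open Pool.Agent.Run7.h230.QF
open Pool.Agent.H97R3.VR (IsMedian)
open Pool.Agent.TH97.VR (walls)

theorem t_HOR : S_HOR := by
  intro V G _ _ Γ hA k L hL i i₂ hne n T hT h₁ h₂ hp
  obtain ⟨hTL, hT⟩ := hT
  obtain ⟨hp1, hp2, hp3⟩ := hp
  have key : ∀ r : ℕ, ∃ τ : T, Eqv G (Wi i n) τ.1 (fun z => h₁ (z + Pi.single i₂ (r : ℤ))) := by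
    intro r
    obtain ⟨τ, hτ, h⟩ := hT (fun z => h₁ (z + Pi.single i₂ (r : ℤ)))
      (fun z => h₂ (z + Pi.single i₂ (r : ℤ)))
      ⟨hL.shift _ hp1 _, hL.shift _ hp2 _, fun z => by
        rw [hp3, Pi.add_apply, Pi.single_eq_of_ne hne.symm, add_zero]⟩
    exact ⟨⟨τ, hτ⟩, h⟩
  choose τ hτ using key
  have main : ∀ r₁ r₂ : ℕ, r₁ < r₂ → τ r₁ = τ r₂ → ∃ (r₁ r₂ : ℕ) (g : G), r₁ < r₂ ∧
      ∀ z ∈ Wi i n, g • h₁ (z + Pi.single i₂ (r₁ : ℤ)) = h₁ (z + Pi.single i₂ (r₂ : ℤ)) := by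
    intro r₁ r₂ hr he
    obtain ⟨g₁, h1⟩ := hτ r₁
    obtain ⟨g₂, h2⟩ := hτ r₂
    refine ⟨r₁, r₂, g₂ * g₁⁻¹, hr, fun z hz => ?_⟩
    have e1 : g₁ • (τ r₁).1 z = h₁ (z + Pi.single i₂ (r₁ : ℤ)) := h1 z hz
    have e2 : g₂ • (τ r₂).1 z = h₁ (z + Pi.single i₂ (r₂ : ℤ)) := h2 z hz
    rw [← e1, ← e2, mul_smul, inv_smul_smul, he]
  obtain ⟨a, b, hab, he⟩ := Finite.exists_ne_map_eq_of_infinite τ
  rcases lt_or_gt_of_ne hab with h | h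
  · exact main a b h he
  · exact main b a h he.symm

end Run7.h930.QF
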