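import Pool.Agent.Run7.h230.QF.Stm2

/-! # Piece HPP of project QF (phase 2) -/

set_option autoImplicit false

namespace Run7.h930.QF.HPP

open Pool.Agent.Run7.h230.QF
open Pool.Agent.H97R3.VR (IsMedian)
open Pool.Agent.TH97.VR (walls)

section

variable {V : Type} {k : ℕ} {Γ : SimpleGraph V}

/-- the half-spaces near `0` of flats which agree near `0` -/
lemma hs_agree (hΓ : IsMedian Γ) {f₁ f₂ : (Fin k → ℤ) → V} (h1 : IsFlat Γ f₁) (h2 : IsFlat Γ f₂)
    {R : ℕ} (h : Agree f₁ f₂ R) (i : Fin k) (l : ℤ) (hl : -(R : ℤ) ≤ l) (hl' : l + 1 ≤ R) :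
    HS Γ f₁ i l = HS Γ f₂ i l := by
  have key : ∀ m : ℤ, -(R : ℤ) ≤ m → m ≤ R → f₁ (Pi.single i m) = f₂ (Pi.single i m) := by
    intro m hm hm'
    apply h
    intro i'
    by_cases hi : i' = i
    · subst hi
      rw [Pi.single_eq_same, abs_le]
      exact ⟨hm, hm'⟩
    · rw [Pi.single_eq_of_ne hi, abs_zero]
      positivity
  have := IsFlat.HS_congr hΓ h1 h2 (z := Pi.single i l) (w := Pi.single i l) (i := i)
    (key l hl (by omega)) (by rw [← single_succ]; exact key (l + 1) (by omega) hl')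
  simpa using this

lemma step (hEQV : S_EQV) {G : Type} [Group G] [MulAction G V] (hA : Act G Γ)
    (hG : ¬ Grid Γ (k + 1) 1) {L : Set ((Fin k → ℤ) → V)} (hL : Sys G Γ L) (i : Fin k) (R : ℕ)
    (hR : 1 ≤ R) (hD : ¬ Det Γ L i R) : ∃ F₁ ∈ L, ∃ F₂ ∈ L, F₁ 0 = F₂ 0 ∧
      (∀ z : Fin k → ℤ, (∀ i', |z i'| ≤ (R : ℤ)) → z i ≤ 0 → F₁ z = F₂ z) ∧
      F₁ (Pi.single i 1) ≠ F₂ (Pi.single i 1) := by
  classical
  unfold Det at hD
  push Not at hD
  obtain ⟨f₁, hf₁, f₂, hf₂, hag, s, hs⟩ := hD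
  have h1 := hL.flat _ hf₁
  have h2 := hL.flat _ hf₂
  have hag1 : Agree f₁ f₂ 1 := fun z hz => hag z fun i' =>
    (hz i').trans (by exact_mod_cast hR)
  have hex : ∃ t : ℕ, f₁ (Pi.single i (t : ℤ)) ≠ f₂ (Pi.single i (t : ℤ)) := by
    by_contra hcon
    push Not at hcon
    apply hs (max s 0) (le_max_left _ _)
    obtain ⟨m, hm⟩ := Int.eq_ofNat_of_zero_le (le_max_right s 0)
    refine ⟨⟨Pi.single i ((m + 1 : ℕ) : ℤ), ?_⟩, ⟨Pi.single i ((0 : ℕ) : ℤ), ?_⟩⟩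
    · rw [← hcon, h1.side, hm]
      simp
    · rw [← hcon, h1.side, hm]
      simp
  let t := Nat.find hex
  have ht : f₁ (Pi.single i (t : ℤ)) ≠ f₂ (Pi.single i (t : ℤ)) := Nat.find_spec hex
  have htm : ∀ m : ℕ, m < t → f₁ (Pi.single i (m : ℤ)) = f₂ (Pi.single i (m : ℤ)) :=
    fun m hm => not_not.mp (Nat.find_min hex hm)
  have htR : R < t := by
    by_contra hle
    apply ht
    apply hag
    intro i'
    by_cases hi : i' = i
    · subst hi
      rw [Pi.single_eq_same, abs_of_nonneg (by positivity)]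
      exact_mod_cast not_lt.mp hle
    · rw [Pi.single_eq_of_ne hi, abs_zero]
      positivity
  obtain ⟨u, hu⟩ : ∃ u : ℕ, t = u + 1 := ⟨t - 1, by omega⟩
  have huR : R ≤ u := by omega
  have hE := hEQV V Γ hA.med k hG f₁ f₂ h1 h2 hag1
  have hwall : ∀ l : ℤ, 0 ≤ l → l < u → HS Γ f₁ i l = HS Γ f₂ i l := by
    intro l hl hlu
    apply ((hE (Pi.single i (u : ℤ)) (Pi.single i (u : ℤ))).1 (htm u (by omega))).2 i l
    left
    rw [Pi.single_eq_same]
    exact ⟨hl, hlu⟩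
  refine ⟨_, hL.shift f₁ hf₁ (Pi.single i (u : ℤ)), _, hL.shift f₂ hf₂ (Pi.single i (u : ℤ)),
    ?_, ?_, ?_⟩
  · show f₁ (0 + Pi.single i (u : ℤ)) = f₂ (0 + Pi.single i (u : ℤ))
    rw [zero_add]
    exact htm u (by omega)
  · intro z hz hzi
    show f₁ (z + Pi.single i (u : ℤ)) = f₂ (z + Pi.single i (u : ℤ))
    apply (hE _ _).2
    refine ⟨rfl, fun i' l hl => ?_⟩
    by_cases hi : i' = i
    · subst hi
      have hz1 := abs_le.mp (hz i')
      simp only [Pi.add_apply, Pi.single_eq_same] at hl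
      rcases hl with ⟨h3, h4⟩ | ⟨h3, h4⟩
      · exact hwall l h3 (by omega)
      · omega
    · have hz1 := abs_le.mp (hz i')
      simp only [Pi.add_apply, Pi.single_eq_of_ne hi, add_zero] at hl
      apply hs_agree hA.med h1 h2 hag
      · rcases hl with ⟨h3, h4⟩ | ⟨h3, h4⟩ <;> omega
      · rcases hl with ⟨h3, h4⟩ | ⟨h3, h4⟩ <;> omega
  · show f₁ (Pi.single i 1 + Pi.single i (u : ℤ)) ≠ f₂ (Pi.single i 1 + Pi.single i (u : ℤ))
    rw [← Pi.single_add]
    have h3 : (1 : ℤ) + (u : ℤ) = (t : ℤ) := by rw [hu]; push_cast; ring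
    rw [h3]
    exact ht

end

theorem t_HPP : S_EQV → S_CPT → S_HPP := by
  intro hEQV hCPT V G _ _ Γ hA k hG L hL i hD
  have hst := fun n : ℕ => step hEQV hA hG hL i (n + 1) (by omega) (hD (n + 1))
  choose F₁ hF₁ F₂ hF₂ h0 hag hne using hst
  obtain ⟨h₁, hh₁, h₂, hh₂, hlim⟩ := hCPT V G Γ hA k L hL F₁ F₂ hF₁ hF₂ h0
  have hle : ∀ z : Fin k → ℤ, z i ≤ 0 → h₁ z = h₂ z := by
    intro z hz
    obtain ⟨R, hR⟩ : ∃ R : ℕ, ∀ i', |z i'| ≤ (R : ℤ) := by
      refine ⟨∑ i', (z i').natAbs, fun i' => ?_⟩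
      rw [Int.abs_eq_natAbs]
      exact_mod_cast Finset.single_le_sum (f := fun i' => (z i').natAbs)
        (fun _ _ => Nat.zero_le _) (Finset.mem_univ i')
    obtain ⟨n, hn, g, hg1, hg2⟩ := hlim R R
    rw [hg1 z hR, hg2 z hR]
    show g • F₁ n z = g • F₂ n z
    congr 1
    apply hag n z _ hz
    intro i'
    refine (hR i').trans ?_
    push_cast
    have : (R : ℤ) ≤ n := by exact_mod_cast hn
    omega
  have hone : h₁ (Pi.single i 1) ≠ h₂ (Pi.single i 1) := by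
    obtain ⟨n, hn, g, hg1, hg2⟩ := hlim 1 0
    have hb : ∀ i', |(Pi.single i 1 : Fin k → ℤ) i'| ≤ ((1 : ℕ) : ℤ) := by
      intro i'
      by_cases hi : i' = i
      · subst hi; simp
      · rw [Pi.single_eq_of_ne hi]; simp
    rw [hg1 _ hb, hg2 _ hb]
    intro h
    exact hne n (MulAction.injective g h)
  refine ⟨h₁, h₂, hh₁, hh₂, fun z => ⟨fun hz => ?_, hle z⟩⟩
  by_contra hpos
  have hzi : 1 ≤ z i := by omega
  let e : Fin k → ℤ := Pi.single i (1 : ℤ)
  have hk₁ := hL.shift h₁ hh₁ (-e)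
  have hk₂ := hL.shift h₂ hh₂ (-e)
  have hagk : Agree (fun z => h₁ (z + -e)) (fun z => h₂ (z + -e)) 1 := by
    intro y hy
    apply hle
    have := abs_le.mp (hy i)
    simp only [Pi.add_apply, Pi.neg_apply, e, Pi.single_eq_same]
    have h3 := this.2
    push_cast at h3
    omega
  have hE := hEQV V Γ hA.med k hG _ _ (hL.flat _ hk₁) (hL.flat _ hk₂) hagk
  have h3 := ((hE (z + e) (z + e)).1 (by simpa using hz)).2
  have h4 : h₁ (Pi.single i 2 + -e) = h₂ (Pi.single i 2 + -e) := by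
    apply (hE (Pi.single i 2) (Pi.single i 2)).2
    refine ⟨rfl, fun i' l hl => ?_⟩
    by_cases hi : i' = i
    · subst hi
      rw [Pi.single_eq_same] at hl
      apply h3
      simp only [Pi.add_apply, e, Pi.single_eq_same]
      omega
    · rw [Pi.single_eq_of_ne hi] at hl
      omega
  have h5 : (Pi.single i 2 + -e : Fin k → ℤ) = Pi.single i 1 := by
    funext i'
    by_cases hi : i' = i
    · subst hi; simp [e]
    · simp [e, Pi.single_eq_of_ne hi]
  rw [h5] at h4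
  exact hone h4

end Run7.h930.QF.HPP
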